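import Pool.Agent.BLP.StmtsE

/-!
# Row E_EAS: asymptotics of the differences of a concave sequence
-/

namespace Pool.Agent.BLP.H2

open MeasureTheory ProbabilityTheory Filter Topology Finset
open scoped ENNReal

noncomputable section

theorem d_anti {a : ℕ → ℝ} (h : ∀ n : ℕ, 1 ≤ n → a n + a (n + 2) ≤ 2 * a (n + 1)) {n : ℕ}
    (hn : 1 ≤ n) : a (n + 1 + 1) - a (n + 1) ≤ a (n + 1) - a n := by
  have := h n hn
  have h2 : a (n + 1 + 1) = a (n + 2) := rfl
  rw [h2]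
  linarith

theorem d_anti' {a : ℕ → ℝ} (h : ∀ n : ℕ, 1 ≤ n → a n + a (n + 2) ≤ 2 * a (n + 1)) {n : ℕ}
    (hn : 1 ≤ n) (i : ℕ) : a (n + i + 1) - a (n + i) ≤ a (n + 1) - a n := by
  induction i with
  | zero => simp
  | succ i ih => exact (d_anti h (n := n + i) (by omega)).trans ih

theorem up {a : ℕ → ℝ} (h : ∀ n : ℕ, 1 ≤ n → a n + a (n + 2) ≤ 2 * a (n + 1)) {n : ℕ}
    (hn : 1 ≤ n) (i : ℕ) : a (n + i) - a n ≤ i * (a (n + 1) - a n) := by
  induction i with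
  | zero => simp
  | succ i ih =>
    have h1 := d_anti' h hn i
    have h2 : a (n + (i + 1)) = a (n + i + 1) := rfl
    rw [h2]
    push_cast
    linarith

theorem lo {a : ℕ → ℝ} (h : ∀ n : ℕ, 1 ≤ n → a n + a (n + 2) ≤ 2 * a (n + 1)) {n : ℕ}
    (hn : 1 ≤ n) (i : ℕ) : i * (a (n + i + 1) - a (n + i)) ≤ a (n + i) - a n := by
  induction i with
  | zero => simp
  | succ i ih =>
    have h1 := d_anti h (n := n + i) (by omega)
    have h2 : a (n + (i + 1)) = a (n + i + 1) := rfl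
    have h3 : a (n + (i + 1) + 1) = a (n + i + 1 + 1) := rfl
    rw [h2, h3]
    push_cast
    have h4 : (i : ℝ) * (a (n + i + 1 + 1) - a (n + i + 1)) ≤
        i * (a (n + i + 1) - a (n + i)) := mul_le_mul_of_nonneg_left h1 (Nat.cast_nonneg i)
    linarith

/-- the ratio of square roots -/
theorem sq_ratio {m : ℕ → ℕ} {r : ℝ}
    (h : Tendsto (fun n : ℕ => (m n : ℝ) / n) atTop (𝓝 r)) :
    Tendsto (fun n : ℕ => Real.sqrt (m n) / Real.sqrt n) atTop (𝓝 (Real.sqrt r)) := by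
  have h1 := (Real.continuous_sqrt.tendsto r).comp h
  refine h1.congr fun n => ?_
  exact Real.sqrt_div' _ (Nat.cast_nonneg n)

theorem m_top {m : ℕ → ℕ} {r : ℝ} (hr : 0 < r)
    (h : Tendsto (fun n : ℕ => (m n : ℝ) / n) atTop (𝓝 r)) : Tendsto m atTop atTop := by
  have h1 : Tendsto (fun n : ℕ => (m n : ℝ) / n * n) atTop atTop :=
    h.pos_mul_atTop hr tendsto_natCast_atTop_atTop
  have h2 : Tendsto (fun n : ℕ => (m n : ℝ)) atTop atTop := by
    refine h1.congr' ?_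
    filter_upwards [eventually_gt_atTop 0] with n hn
    have : (n : ℝ) ≠ 0 := Nat.cast_ne_zero.2 hn.ne'
    field_simp
  exact tendsto_natCast_atTop_iff.1 h2

theorem a_ratio {a : ℕ → ℝ} {c : ℝ} (hc : Tendsto (fun n : ℕ => a n / Real.sqrt n) atTop (𝓝 c))
    {m : ℕ → ℕ} {r : ℝ} (hr : 0 < r) (h : Tendsto (fun n : ℕ => (m n : ℝ) / n) atTop (𝓝 r)) :
    Tendsto (fun n : ℕ => a (m n) / Real.sqrt n) atTop (𝓝 (c * Real.sqrt r)) := by
  have hm := m_top hr h
  have h1 := (hc.comp hm).mul (sq_ratio h)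
  refine h1.congr' ?_
  filter_upwards [hm.eventually (eventually_gt_atTop 0)] with n hn
  have h2 : Real.sqrt (m n) ≠ 0 := (Real.sqrt_pos.2 (Nat.cast_pos.2 hn)).ne'
  simp only [Function.comp]
  rw [div_mul_div_comm, mul_comm (Real.sqrt (m n)) (Real.sqrt n), ← div_mul_div_comm,
    div_self h2, mul_one]

theorem quot {a : ℕ → ℝ} {c : ℝ} (hc : Tendsto (fun n : ℕ => a n / Real.sqrt n) atTop (𝓝 c))
    {m : ℕ → ℕ} {t : ℝ} (ht : t ≠ 0) (ht1 : 0 < 1 + t)
    (h : Tendsto (fun n : ℕ => (m n : ℝ) / n) atTop (𝓝 (1 + t))) :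
    Tendsto (fun n : ℕ => Real.sqrt n * ((a (m n) - a n) / ((m n : ℝ) - n))) atTop
      (𝓝 (c * (t⁻¹ * (Real.sqrt (1 + t) - 1)))) := by
  have h1 := a_ratio hc ht1 h
  have h2 : Tendsto (fun n : ℕ => (m n : ℝ) / n - 1) atTop (𝓝 t) := by
    have := h.sub_const 1
    rwa [add_sub_cancel_left] at this
  have h3 := (h1.sub hc).div h2 ht
  have e : (c * Real.sqrt (1 + t) - c) / t = c * (t⁻¹ * (Real.sqrt (1 + t) - 1)) := by
    field_simp
  rw [e] at h3
  refine h3.congr' ?_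
  filter_upwards [eventually_gt_atTop 0] with n hn
  have hn' : (0 : ℝ) < n := Nat.cast_pos.2 hn
  have h4 : Real.sqrt n ≠ 0 := (Real.sqrt_pos.2 hn').ne'
  have h5 : (m n : ℝ) / n - 1 = ((m n : ℝ) - n) / n := by
    field_simp
  change (a (m n) / Real.sqrt n - a n / Real.sqrt n) / ((m n : ℝ) / n - 1) = _
  rw [h5, ← sub_div, div_div_div_eq]
  have h6 : (n : ℝ) = Real.sqrt n * Real.sqrt n := (Real.mul_self_sqrt hn'.le).symm
  rcases eq_or_ne ((m n : ℝ) - n) 0 with h7 | h7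
  · rw [h7]
    simp
  · rw [div_eq_iff (mul_ne_zero h4 h7)]
    have h8 : Real.sqrt n * ((a (m n) - a n) / ((m n : ℝ) - n)) * (Real.sqrt n * ((m n : ℝ) - n)) =
        (a (m n) - a n) * (Real.sqrt n * Real.sqrt n) := by
      field_simp
    rw [h8, ← h6]

theorem main1 {a : ℕ → ℝ} {c : ℝ}
    (h : ∀ n : ℕ, 1 ≤ n → a n + a (n + 2) ≤ 2 * a (n + 1))
    (hc : Tendsto (fun n : ℕ => a n / Real.sqrt n) atTop (𝓝 c)) :
    Tendsto (fun n : ℕ => Real.sqrt n * (a (n + 1) - a n)) atTop (𝓝 (c / 2)) := by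
  rw [Metric.tendsto_atTop']
  intro ε hε
  have hF : Tendsto (fun t : ℝ => c * (t⁻¹ * (Real.sqrt (1 + t) - 1))) (𝓝[≠] 0) (𝓝 (c / 2)) := by
    have h1 : HasDerivAt Real.sqrt (1 / (2 * Real.sqrt 1)) 1 := Real.hasDerivAt_sqrt one_ne_zero
    rw [hasDerivAt_iff_tendsto_slope_zero] at h1
    have h2 := h1.const_mul c
    simp only [Real.sqrt_one, mul_one, smul_eq_mul] at h2
    rwa [← mul_div_assoc, mul_one] at h2
  have hev := Metric.tendsto_nhdsWithin_nhds.1 hF ε hε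
  obtain ⟨η, hη, hη'⟩ := hev
  set δ : ℝ := min (η / 2) (1 / 2) with hδ
  have hδ0 : 0 < δ := lt_min (by linarith) (by norm_num)
  have hδη : δ < η := (min_le_left _ _).trans_lt (by linarith)
  have hδ1 : δ ≤ 1 / 2 := min_le_right _ _
  have hf1 : Tendsto (fun n : ℕ => (⌊δ * n⌋₊ : ℝ) / n) atTop (𝓝 δ) :=
    (tendsto_nat_floor_mul_div_atTop hδ0.le).comp tendsto_natCast_atTop_atTop
  have hle : ∀ n : ℕ, ⌊δ * n⌋₊ ≤ n := by
    intro n
    apply Nat.floor_le_of_le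
    have : (0 : ℝ) ≤ n := Nat.cast_nonneg n
    nlinarith
  have hlt : ∀ n : ℕ, 0 < n → ⌊δ * n⌋₊ < n := by
    intro n hn
    have hn' : (0 : ℝ) < n := Nat.cast_pos.2 hn
    rw [Nat.floor_lt (by positivity)]
    nlinarith
  have h1 : Tendsto (fun n : ℕ => ((n + ⌊δ * n⌋₊ : ℕ) : ℝ) / n) atTop (𝓝 (1 + δ)) := by
    refine (hf1.const_add 1).congr' ?_
    filter_upwards [eventually_gt_atTop 0] with n hn
    have : (n : ℝ) ≠ 0 := Nat.cast_ne_zero.2 hn.ne'
    push_cast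
    field_simp
  have h2 : Tendsto (fun n : ℕ => ((n - ⌊δ * n⌋₊ : ℕ) : ℝ) / n) atTop (𝓝 (1 + -δ)) := by
    refine ((hf1.neg).const_add 1).congr' ?_
    filter_upwards [eventually_gt_atTop 0] with n hn
    have : (n : ℝ) ≠ 0 := Nat.cast_ne_zero.2 hn.ne'
    rw [Nat.cast_sub (hle n)]
    field_simp
    ring
  have q1 := quot hc hδ0.ne' (by linarith) h1
  have q2 := quot hc (neg_ne_zero.2 hδ0.ne') (by linarith) h2
  have g1 : dist (c * (δ⁻¹ * (Real.sqrt (1 + δ) - 1))) (c / 2) < ε :=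
    hη' (by simpa using hδ0.ne') (by
      rw [Real.dist_eq, sub_zero, abs_of_pos hδ0]
      exact hδη)
  have g2 : dist (c * ((-δ)⁻¹ * (Real.sqrt (1 + -δ) - 1))) (c / 2) < ε :=
    hη' (by simpa using hδ0.ne') (by
      rw [Real.dist_eq, sub_zero, abs_neg, abs_of_pos hδ0]
      exact hδη)
  rw [Real.dist_eq, abs_lt] at g1 g2
  have e1 := q1.eventually (lt_mem_nhds (a := c / 2 - ε) (by linarith [g1.1]))
  have g2' : c * ((-δ)⁻¹ * (Real.sqrt (1 + -δ) - 1)) < c / 2 + ε := by linarith [g2.2]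
  have e2 := q2.eventually (gt_mem_nhds g2')
  have hfl : Tendsto (fun n : ℕ => ⌊δ * n⌋₊) atTop atTop := m_top hδ0 hf1
  have e3 := hfl.eventually (eventually_gt_atTop 0)
  obtain ⟨N, hN⟩ := eventually_atTop.1 ((e1.and e2).and (e3.and (eventually_gt_atTop 0)))
  refine ⟨N, fun n hn => ?_⟩
  obtain ⟨⟨a1, a2⟩, a3, a4⟩ := hN n hn.le
  have hfl0 : (0 : ℝ) < ⌊δ * n⌋₊ := Nat.cast_pos.2 a3
  have hs : 0 ≤ Real.sqrt n := Real.sqrt_nonneg _
  rw [Real.dist_eq, abs_lt]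
  constructor
  · have h3 := up h (n := n) a4 ⌊δ * n⌋₊
    have h4 : ((n + ⌊δ * n⌋₊ : ℕ) : ℝ) - n = ⌊δ * n⌋₊ := by
      push_cast
      ring
    rw [h4] at a1
    have h5 : (a (n + ⌊δ * n⌋₊) - a n) / (⌊δ * n⌋₊ : ℝ) ≤ a (n + 1) - a n := by
      rw [div_le_iff₀ hfl0]
      linarith
    have h6 := mul_le_mul_of_nonneg_left h5 hs
    linarith
  · have h3 := lo h (n := n - ⌊δ * n⌋₊) (by have := hlt n a4; omega) ⌊δ * n⌋₊
    rw [Nat.sub_add_cancel (hle n)] at h3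
    have h4 : ((n - ⌊δ * n⌋₊ : ℕ) : ℝ) - n = -⌊δ * n⌋₊ := by
      rw [Nat.cast_sub (hle n)]
      ring
    rw [h4] at a2
    have h5 : a (n + 1) - a n ≤ (a (n - ⌊δ * n⌋₊) - a n) / (-(⌊δ * n⌋₊ : ℝ)) := by
      rw [le_div_iff_of_neg (by linarith)]
      linarith
    have h6 := mul_le_mul_of_nonneg_left h5 hs
    linarith

theorem toNat_cast {j : ℤ} : ∀ᶠ n : ℕ in atTop, ((((n : ℤ) + j).toNat : ℕ) : ℤ) = n + j := by
  filter_upwards [eventually_ge_atTop j.natAbs] with n hn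
  rw [Int.toNat_of_nonneg]
  omega

theorem toNat_ratio (j : ℤ) :
    Tendsto (fun n : ℕ => ((((n : ℤ) + j).toNat : ℕ) : ℝ) / n) atTop (𝓝 1) := by
  have h1 : Tendsto (fun n : ℕ => 1 + (j : ℝ) / n) atTop (𝓝 (1 + 0)) :=
    (tendsto_const_div_atTop_nhds_zero_nat (j : ℝ)).const_add 1
  rw [add_zero] at h1
  refine h1.congr' ?_
  filter_upwards [toNat_cast (j := j), eventually_gt_atTop 0] with n h2 hn
  have h3 : ((((n : ℤ) + j).toNat : ℕ) : ℝ) = n + j := by exact_mod_cast h2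
  have : (n : ℝ) ≠ 0 := Nat.cast_ne_zero.2 hn.ne'
  rw [h3]
  field_simp

theorem step {a : ℕ → ℝ} {c : ℝ}
    (h : ∀ n : ℕ, 1 ≤ n → a n + a (n + 2) ≤ 2 * a (n + 1))
    (hc : Tendsto (fun n : ℕ => a n / Real.sqrt n) atTop (𝓝 c)) (j : ℤ) :
    Tendsto (fun n : ℕ => Real.sqrt n * (a ((n : ℤ) + (j + 1)).toNat - a ((n : ℤ) + j).toNat))
      atTop (𝓝 (c / 2)) := by
  have hr := toNat_ratio j
  have hm := m_top one_pos hr
  have h1 := (main1 h hc).comp hm
  have h2 := (sq_ratio hr).inv₀ (by rw [Real.sqrt_one]; exact one_ne_zero)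
  have h3 := h2.mul h1
  rw [Real.sqrt_one, inv_one, one_mul] at h3
  refine h3.congr' ?_
  filter_upwards [toNat_cast (j := j), toNat_cast (j := j + 1),
    hm.eventually (eventually_gt_atTop 0)] with n h4 h5 h6
  have h7 : ((n : ℤ) + (j + 1)).toNat = ((n : ℤ) + j).toNat + 1 := by omega
  have h8 : Real.sqrt (((n : ℤ) + j).toNat : ℕ) ≠ 0 := (Real.sqrt_pos.2 (Nat.cast_pos.2 h6)).ne'
  rw [h7]
  simp only [Function.comp]
  rw [inv_div]
  field_simp

theorem main2 {a : ℕ → ℝ} {c : ℝ}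
    (h : ∀ n : ℕ, 1 ≤ n → a n + a (n + 2) ≤ 2 * a (n + 1))
    (hc : Tendsto (fun n : ℕ => a n / Real.sqrt n) atTop (𝓝 c)) (j : ℤ) :
    Tendsto (fun n : ℕ => Real.sqrt n * (a ((n : ℤ) + j).toNat - a ((n : ℤ) + 0).toNat))
      atTop (𝓝 (j * (c / 2))) := by
  induction j using Int.induction_on with
  | zero => simp
  | succ i ih =>
    have h1 := ih.add (step h hc i)
    have e : ((i : ℤ) : ℝ) * (c / 2) + c / 2 = (((i : ℤ) + 1 : ℤ) : ℝ) * (c / 2) := by
      push_cast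
      ring
    rw [e] at h1
    refine h1.congr fun n => ?_
    ring
  | pred i ih =>
    have h1 := ih.sub (step h hc (-i - 1))
    have e : ((-(i : ℤ) : ℤ) : ℝ) * (c / 2) - c / 2 = ((-(i : ℤ) - 1 : ℤ) : ℝ) * (c / 2) := by
      push_cast
      ring
    rw [e] at h1
    refine h1.congr fun n => ?_
    have e2 : (n : ℤ) + (-(i : ℤ) - 1 + 1) = n + -(i : ℤ) := by ring
    rw [e2]
    ring

theorem e_eas : EasStmt := by
  intro a c h hc q k x hq
  have hr1 := toNat_ratio 1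
  -- `√((n q - x)/n) → √q`
  have hq1 : Tendsto (fun n : ℕ => (n * q - x) / n) atTop (𝓝 q) := by
    have h1 : Tendsto (fun n : ℕ => q - x / (n : ℝ)) atTop (𝓝 (q - 0)) :=
      (tendsto_const_div_atTop_nhds_zero_nat x).const_sub q
    rw [sub_zero] at h1
    refine h1.congr' ?_
    filter_upwards [eventually_gt_atTop 0] with n hn
    have : (n : ℝ) ≠ 0 := Nat.cast_ne_zero.2 hn.ne'
    field_simp
  have hq2 : Tendsto (fun n : ℕ => Real.sqrt ((n * q - x) / n)) atTop (𝓝 (Real.sqrt q)) :=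
    (Real.continuous_sqrt.tendsto q).comp hq1
  have hsq : 0 < Real.sqrt q := Real.sqrt_pos.2 hq
  -- first term
  have t1 : Tendsto (fun n : ℕ => (a ((n : ℤ) + (1 - k)).toNat - a ((n : ℤ) + 1).toNat) *
      Real.sqrt (n * q - x)) atTop (𝓝 (-(k : ℝ) * (c / 2) * Real.sqrt q)) := by
    have h1 := ((main2 h hc (1 - k)).sub (main2 h hc 1)).mul hq2
    have e : (((1 - k : ℤ) : ℝ) * (c / 2) - ((1 : ℤ) : ℝ) * (c / 2)) * Real.sqrt q =
        -(k : ℝ) * (c / 2) * Real.sqrt q := by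
      push_cast
      ring
    rw [e] at h1
    refine h1.congr' ?_
    filter_upwards [eventually_gt_atTop 0] with n hn
    have hn' : (0 : ℝ) < n := Nat.cast_pos.2 hn
    have h4 : Real.sqrt n ≠ 0 := (Real.sqrt_pos.2 hn').ne'
    rw [Real.sqrt_div' _ hn'.le]
    field_simp
    ring
  -- second term
  have t2 : Tendsto (fun n : ℕ => a ((n : ℤ) + 1).toNat *
      (Real.sqrt (n * q - x) - Real.sqrt (n * q))) atTop
      (𝓝 (c * Real.sqrt 1 * (-x / (Real.sqrt q + Real.sqrt q)))) := by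
    have h1 := a_ratio hc one_pos hr1
    have h2 : Tendsto (fun n : ℕ => -x / (Real.sqrt ((n * q - x) / n) + Real.sqrt q)) atTop
        (𝓝 (-x / (Real.sqrt q + Real.sqrt q))) :=
      tendsto_const_nhds.div (hq2.add_const _) (by positivity)
    refine (h1.mul h2).congr' ?_
    obtain ⟨N, hN⟩ := exists_nat_gt (x / q)
    filter_upwards [eventually_gt_atTop 0, eventually_ge_atTop N] with n hn hnN
    have hn' : (0 : ℝ) < n := Nat.cast_pos.2 hn
    have h4 : 0 < Real.sqrt n := Real.sqrt_pos.2 hn'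
    have h5 : x < n * q := by
      have : x / q < n := hN.trans_le (Nat.cast_le.2 hnN)
      rwa [div_lt_iff₀ hq] at this
    have h6 : 0 < Real.sqrt (n * q - x) := Real.sqrt_pos.2 (by linarith)
    have h7 : 0 < Real.sqrt (n * q) := Real.sqrt_pos.2 (by positivity)
    have h8 : Real.sqrt (n * q - x) - Real.sqrt (n * q) =
        -x / (Real.sqrt (n * q - x) + Real.sqrt (n * q)) := by
      rw [eq_div_iff (by positivity)]
      have e1 := Real.mul_self_sqrt (show (0 : ℝ) ≤ n * q - x by linarith)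
      have e2 := Real.mul_self_sqrt (show (0 : ℝ) ≤ n * q by positivity)
      linear_combination e1 - e2
    have h9 : Real.sqrt q = Real.sqrt (n * q) / Real.sqrt n := by
      rw [Real.sqrt_mul hn'.le]
      field_simp
    rw [h8, Real.sqrt_div' _ hn'.le, h9]
    field_simp
  have t3 := t1.add t2
  have e : -(k : ℝ) * (c / 2) * Real.sqrt q + c * Real.sqrt 1 * (-x / (Real.sqrt q + Real.sqrt q)) =
      -(c / 2 * (k * Real.sqrt q + x / Real.sqrt q)) := by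
    rw [Real.sqrt_one]
    field_simp
    ring
  rw [e] at t3
  refine t3.congr fun n => ?_
  have e1 : ((n : ℤ) + (1 - k)) = (n : ℤ) - k + 1 := by ring
  have e2 : ((n : ℤ) + 1).toNat = n + 1 := rfl
  rw [e1, e2]
  ring

end

end Pool.Agent.BLP.H2
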