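import Pool.Agent.BLP.StmtsE

/-!
# Row E_ELL: localisation of geodesics, left side
-/

namespace Pool.Agent.BLP.H2

open MeasureTheory ProbabilityTheory Filter Topology Finset
open scoped ENNReal

noncomputable section

theorem cover {y : ℕ → ℝ} {u : ℝ} (h0 : y 0 ≤ u) (J : ℕ) (hJ : 1 ≤ J) :
    u ≤ y J → ∃ i < J, y i ≤ u ∧ u ≤ y (i + 1) := by
  induction J, hJ using Nat.le_induction with
  | base => exact fun h => ⟨0, one_pos, h0, h⟩
  | succ J hJ ih =>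
    intro h
    rcases le_or_gt u (y J) with h1 | h1
    · obtain ⟨i, hi, h2⟩ := ih h1
      exact ⟨i, by omega, h2⟩
    · exact ⟨J, by omega, h1.le, h⟩

theorem ofReal_total {δ' : ℝ} (h : 0 ≤ δ') (J : ℕ) :
    ENNReal.ofReal δ' + ∑ _i ∈ Finset.range J, (ENNReal.ofReal δ' + ENNReal.ofReal δ') =
      ENNReal.ofReal ((2 * J + 1) * δ') := by
  rw [Finset.sum_const, Finset.card_range, nsmul_eq_mul, ← ENNReal.ofReal_add h h,
    ← ENNReal.ofReal_natCast, ← ENNReal.ofReal_mul (Nat.cast_nonneg J),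
    ← ENNReal.ofReal_add h (by positivity)]
  congr 1
  ring

theorem e_ell (inc : IncStmt) (elv : ElvStmt) (els : ElsStmt) (ebg : EbgStmt) (edl : EdlStmt) :
    EllStmt := by
  intro X _ μ B c hS hL q₁ q hq₁ hq m s δ hδ
  have hc : 0 < c := hL.1
  have hq₁' : (0 : ℝ) < q₁ := by exact_mod_cast hq₁
  have hqq : (q₁ : ℝ) < q := by exact_mod_cast hq
  have hq0 : 0 < q := hq₁.trans hq
  obtain ⟨η, J, M₁, hη, hJ, hedl⟩ := edl c q q₁ m s hc hq₁' hqq
  have hJ' : (0 : ℝ) < J := by exact_mod_cast hJ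
  set δ' : ℝ := δ / (2 * J + 1) with hδ'
  have hδ'0 : 0 < δ' := by positivity
  set A : ℝ := 1 + q₁ + |(s : ℝ)| with hA
  have hA0 : 0 < A := by positivity
  obtain ⟨M₂, helv⟩ := elv X μ B c hS hL q hq0 m s A η δ' hA0 hη hδ'0
  obtain ⟨N₀, hels⟩ := els X μ B c hS hL (2 * (q₁ + |(s : ℝ)|)) η δ' (by positivity) hη hδ'0
  obtain ⟨M₃, hebg⟩ := ebg X μ B hS A η δ' hA0 hη hδ'0
  obtain ⟨M₄, hM₄⟩ := exists_nat_ge (|(s : ℝ)| / q₁)
  refine ⟨M₁ + M₂ + N₀ + M₃ + M₄ + 2 * m.natAbs + 1, fun M hM => ?_⟩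
  have hM1 : 1 ≤ M := by omega
  have hM1' : (1 : ℝ) ≤ M := by exact_mod_cast hM1
  have hmM : 2 * m ≤ M ∧ -(M : ℤ) ≤ 2 * m := by omega
  have hmM1 : 2 * (m : ℝ) ≤ M := by exact_mod_cast hmM.1
  have hmM2 : -(M : ℝ) ≤ 2 * m := by exact_mod_cast hmM.2
  have hmle : m ≤ (M : ℤ) := by omega
  have hNm : (N₀ : ℤ) ≤ (M : ℤ) - m := by omega
  have hMs : |(s : ℝ)| ≤ M * q₁ := by
    rw [div_le_iff₀ hq₁'] at hM₄
    have h1 : (M₄ : ℝ) ≤ M := by
      have : M₄ ≤ M := by omega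
      exact_mod_cast this
    exact hM₄.trans (mul_le_mul_of_nonneg_right h1 hq₁'.le)
  have hsM : (s : ℝ) ≤ M * q₁ := (le_abs_self _).trans hMs
  -- the points
  set y : ℕ → ℚ := fun i => s + i * ((M * q₁ - s) / J) with hy
  have hyr : ∀ i, (y i : ℝ) = s + i * ((M * q₁ - s) / J) := by
    intro i
    rw [hy]
    push_cast
    rfl
  have hD : (0 : ℝ) ≤ (M * q₁ - s) / J := div_nonneg (by linarith) hJ'.le
  have hy0 : (y 0 : ℝ) = s := by
    rw [hyr]
    simp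
  have hyJ : (y J : ℝ) = M * q₁ := by
    rw [hyr]
    field_simp
    ring
  have hys : ∀ i, (y (i + 1) : ℝ) = y i + (M * q₁ - s) / J := by
    intro i
    rw [hyr, hyr]
    push_cast
    ring
  have hyge : ∀ i, (s : ℝ) ≤ y i := by
    intro i
    rw [hyr]
    have : (0 : ℝ) ≤ i * ((M * q₁ - s) / J) := mul_nonneg (Nat.cast_nonneg i) hD
    linarith
  have hyle : ∀ i ≤ J, (y i : ℝ) ≤ M * q₁ := by
    intro i hi
    rw [← hyJ, hyr, hyr]
    have h1 : (i : ℝ) ≤ J := by exact_mod_cast hi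
    have := mul_le_mul_of_nonneg_right h1 hD
    linarith
  have hyab : ∀ i ≤ J, |(y i : ℝ)| ≤ A * M := by
    intro i hi
    have h1 := hyge i
    have h2 := hyle i hi
    have h3 := neg_abs_le (s : ℝ)
    have h4 : |(s : ℝ)| ≤ |(s : ℝ)| * M := le_mul_of_one_le_right (abs_nonneg _) hM1'
    rw [abs_le]
    constructor
    · rw [hA]
      have : (0 : ℝ) ≤ q₁ * M := by positivity
      nlinarith
    · rw [hA]
      have : (0 : ℝ) ≤ |(s : ℝ)| * M := by positivity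
      nlinarith
  have hstep : (M * q₁ - s) / J ≤ A * M := by
    have h1 : ((M : ℝ) * q₁ - s) / J ≤ M * q₁ - s :=
      div_le_self (by linarith) (by exact_mod_cast hJ)
    have h3 := neg_abs_le (s : ℝ)
    have h4 : |(s : ℝ)| ≤ |(s : ℝ)| * M := le_mul_of_one_le_right (abs_nonneg _) hM1'
    rw [hA]
    nlinarith
  have hex : ∀ i : ℕ, ∃ n₀ : ℕ, i < J → ∀ n : ℕ, n₀ ≤ n →
      μ {x | η * M < |L (B x) m s n (n * q) - L (B x) (M : ℤ) (y i) n (n * q) -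
        c / 2 * (((M : ℤ) : ℝ) * Real.sqrt q + (y i : ℝ) / Real.sqrt q)|} ≤ ENNReal.ofReal δ' := by
    intro i
    by_cases hi : i < J
    · obtain ⟨n₀, h⟩ := helv M (by omega) (M : ℤ) (y i) (by
        rw [Int.cast_natCast, abs_of_nonneg (Nat.cast_nonneg M), hA]
        have h1 : (0 : ℝ) ≤ q₁ * M := by positivity
        have h2 : (0 : ℝ) ≤ |(s : ℝ)| * M := by positivity
        nlinarith) (hyab i hi.le)
      exact ⟨n₀, fun _ => h⟩
    · exact ⟨0, fun h => absurd h hi⟩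
  choose N hN using hex
  refine ⟨M + (Finset.range J).sup N, fun n hn => ?_⟩
  have hMn : (M : ℤ) ≤ n := by
    have : M ≤ n := by omega
    exact_mod_cast this
  have hMn' : (M : ℝ) ≤ n := by exact_mod_cast hMn
  have hMqn : (M : ℝ) * q₁ ≤ n * q := mul_le_mul hMn' hqq.le hq₁'.le (Nat.cast_nonneg n)
  set Eb : Set X := {x | ∃ e : ℝ, s ≤ e ∧ e ≤ s + 2 * (q₁ + |(s : ℝ)|) * (((M : ℤ) : ℝ) - m) ∧
    η * (((M : ℤ) : ℝ) - m) < |L (B x) m s (M : ℤ) e -
      c * Real.sqrt ((((M : ℤ) : ℝ) - m) * (e - s))|} with hEb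
  set Ea : ℕ → Set X := fun i =>
    {x | η * M < |L (B x) m s n (n * q) - L (B x) (M : ℤ) (y i) n (n * q) -
        c / 2 * (((M : ℤ) : ℝ) * Real.sqrt q + (y i : ℝ) / Real.sqrt q)|} with hEa
  set Ec : ℕ → Set X := fun i => {x | η * M < |B x (M : ℤ) (y (i + 1)) - B x (M : ℤ) (y i)|}
    with hEc
  have hmb : μ Eb ≤ ENNReal.ofReal δ' := hels m (M : ℤ) s hNm
  have hma : ∀ i ∈ Finset.range J, μ (Ea i) ≤ ENNReal.ofReal δ' := by
    intro i hi
    refine hN i (Finset.mem_range.1 hi) n ?_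
    have := Finset.le_sup (f := N) hi
    omega
  have hmc : ∀ i, μ (Ec i) ≤ ENNReal.ofReal δ' := by
    intro i
    refine hebg M (by omega) (M : ℤ) (y i) (y (i + 1)) ?_ ?_
    · rw [hys]
      linarith
    · rw [hys]
      linarith
  have hsub : {x | ∃ u : ℝ, s ≤ u ∧ u ≤ M * q₁ ∧
        L (B x) m s n (n * q) ≤ L (B x) m s M u + L (B x) M u n (n * q)} ⊆
      Eb ∪ ⋃ i ∈ Finset.range J, (Ea i ∪ Ec i) := by
    rintro x ⟨u, hu1, hu2, hu3⟩
    by_contra hx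
    rw [Set.mem_union, Set.mem_iUnion₂] at hx
    push Not at hx
    obtain ⟨hxb, hxi⟩ := hx
    obtain ⟨i, hi, hi1, hi2⟩ := cover (y := fun i => (y i : ℝ)) (u := u) (by
      change (y 0 : ℝ) ≤ u
      rw [hy0]
      exact hu1) J hJ (by
      change u ≤ (y J : ℝ)
      rw [hyJ]
      exact hu2)
    change (y i : ℝ) ≤ u at hi1
    change u ≤ (y (i + 1) : ℝ) at hi2
    have hxi := hxi i (Finset.mem_range.2 hi)
    rw [Set.mem_union] at hxi
    push Not at hxi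
    obtain ⟨hxa, hxc⟩ := hxi
    have hxa' : |L (B x) m s n (n * q) - L (B x) (M : ℤ) (y i) n (n * q) -
        c / 2 * (((M : ℤ) : ℝ) * Real.sqrt q + (y i : ℝ) / Real.sqrt q)| ≤ η * M :=
      not_lt.1 hxa
    have hxc' : |B x (M : ℤ) (y (i + 1)) - B x (M : ℤ) (y i)| ≤ η * M := not_lt.1 hxc
    have hyi1 := hyle (i + 1) hi
    have hA2 : (y (i + 1) : ℝ) ≤ s + 2 * (q₁ + |(s : ℝ)|) * (((M : ℤ) : ℝ) - m) := by
      rw [Int.cast_natCast]
      have h1 : (M : ℝ) ≤ 2 * ((M : ℝ) - m) := by linarith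
      have h2 : (M : ℝ) * (q₁ + |(s : ℝ)|) ≤ 2 * ((M : ℝ) - m) * (q₁ + |(s : ℝ)|) :=
        mul_le_mul_of_nonneg_right h1 (by positivity)
      have h4 : |(s : ℝ)| ≤ M * |(s : ℝ)| := le_mul_of_one_le_left (abs_nonneg _) hM1'
      have h5 := neg_abs_le (s : ℝ)
      linarith
    have hxb' : |L (B x) m s (M : ℤ) (y (i + 1)) -
        c * Real.sqrt ((((M : ℤ) : ℝ) - m) * ((y (i + 1) : ℝ) - s))| ≤
          η * (((M : ℤ) : ℝ) - m) := by
      by_contra hcon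
      exact hxb ⟨(y (i + 1) : ℝ), hyge (i + 1), hA2, not_le.1 hcon⟩
    have hI1 := (inc (B x) (hS.cts x) (M : ℤ) n hMn).1 (y i) u (n * q) hi1 (hu2.trans hMqn)
    have hI2 := (inc (B x) (hS.cts x) m (M : ℤ) hmle).2.1 s u (y (i + 1)) hu1 hi2
    have hE := hedl M (by omega) ((y i : ℝ) - s) ((M * q₁ - s) / J)
      (by have := hyge i; linarith) (by have := hyle i hi.le; linarith) hD le_rfl
    have e1 : (y i : ℝ) - s + (M * q₁ - s) / J = (y (i + 1) : ℝ) - s := by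
      rw [hys]
      ring
    have e2 : (s : ℝ) + ((y i : ℝ) - s) = y i := by ring
    rw [e1, e2] at hE
    rw [abs_le] at hxa' hxb' hxc'
    rw [Int.cast_natCast] at hxa' hxb'
    obtain ⟨a1, a2⟩ := hxa'
    obtain ⟨b1, b2⟩ := hxb'
    obtain ⟨c1, c2⟩ := hxc'
    have hηm : η * ((M : ℝ) - m) ≤ 2 * (η * M) := by
      have : (M : ℝ) - m ≤ 2 * M := by linarith
      nlinarith
    linarith
  calc μ {x | ∃ u : ℝ, s ≤ u ∧ u ≤ M * q₁ ∧
        L (B x) m s n (n * q) ≤ L (B x) m s M u + L (B x) M u n (n * q)}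
      ≤ μ (Eb ∪ ⋃ i ∈ Finset.range J, (Ea i ∪ Ec i)) := measure_mono hsub
    _ ≤ μ Eb + μ (⋃ i ∈ Finset.range J, (Ea i ∪ Ec i)) := measure_union_le _ _
    _ ≤ μ Eb + ∑ i ∈ Finset.range J, μ (Ea i ∪ Ec i) :=
        add_le_add le_rfl (measure_biUnion_finset_le _ _)
    _ ≤ ENNReal.ofReal δ' + ∑ _i ∈ Finset.range J, (ENNReal.ofReal δ' + ENNReal.ofReal δ') := by
        refine add_le_add hmb (Finset.sum_le_sum fun i hi => ?_)
        exact (measure_union_le _ _).trans (add_le_add (hma i hi) (hmc i))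
    _ = ENNReal.ofReal δ := by
        rw [ofReal_total hδ'0.le]
        congr 1
        rw [hδ']
        field_simp

end

end Pool.Agent.BLP.H2
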